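import Pool.Agent.H812.Tm.Spec3

/-!
# A tridiagonal system with exponential dichotomy (subtask of MP_fc8395_an)
-/

set_option autoImplicit false

namespace Pool.Agent.H870.Tm

open Filter Topology Set
open Pool.Agent.H812.Tm

/-- the Wronskian of a solution of the homogeneous system vanishes -/
lemma wronsk (P Q v z : ℕ → ℝ) (hv0 : v 0 = 0) (hP : ∀ i, P i ≠ 0)
    (hv : ∀ i, Q (i + 1) * v (i + 1) = P (i + 1) * v i + P i * v (i + 2))
    (hz0 : z 0 = 0)
    (hz : ∀ i, Q (i + 1) * z (i + 1) = P (i + 1) * z i + P i * z (i + 2)) :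
    ∀ i, z i * v (i + 1) = z (i + 1) * v i := by
  intro i
  induction i with
  | zero => rw [hz0, hv0]; ring
  | succ i ih =>
    have h1 := hv i
    have h2 := hz i
    have h3 : P i * (z (i + 1) * v (i + 2)) = P i * (z (i + 2) * v (i + 1)) := by
      have : v (i + 1) * (Q (i + 1) * z (i + 1)) = z (i + 1) * (Q (i + 1) * v (i + 1)) := by ring
      rw [h1, h2] at this
      linear_combination P (i + 1) * ih - this
    exact mul_left_cancel₀ (hP i) h3

theorem tGTri : GTri := by
  intro c C hc
  refine ⟨|2 * C ^ 3 / c| + 1, by positivity, ?_⟩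
  intro P Q v hv0 hv1 hP hQ hrec hsum hinv r R hr
  have hR : 0 ≤ R := (abs_nonneg _).trans (hr 0)
  have hC : 0 < C := lt_of_lt_of_le hc ((hP 0).1.trans (hP 0).2)
  have hPne : ∀ i, P i ≠ 0 := fun i h => by
    have := (hP i).1
    rw [h, abs_zero] at this
    linarith
  have hvpos : ∀ i, 1 ≤ i → 0 < |v i| := fun i hi => abs_pos.2 (hv1 i hi)
  constructor
  · -- existence
    let g : ℕ → ℝ := fun i => ∑ l ∈ Finset.range i, Q (l + 1) * r (l + 1) * v (l + 1) /
      (P l * P (l + 1))
    have hg0 : g 0 = 0 := by simp [g]
    have hgs : ∀ i, g (i + 1) = g i + Q (i + 1) * r (i + 1) * v (i + 1) / (P i * P (i + 1)) :=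
      fun i => Finset.sum_range_succ _ _
    have hterm : ∀ l, |Q (l + 1) * r (l + 1) * v (l + 1) / (P l * P (l + 1))| ≤
        R / c * (|v l| + |v (l + 2)|) := by
      intro l
      have h1 : Q (l + 1) * r (l + 1) * v (l + 1) / (P l * P (l + 1)) =
          r (l + 1) * (v l / P l + v (l + 2) / P (l + 1)) := by
        have e1 := hrec l
        have n1 := hPne l
        have n2 := hPne (l + 1)
        field_simp
        linear_combination r (l + 1) * e1
      rw [h1, abs_mul]
      have h2 : |v l / P l + v (l + 2) / P (l + 1)| ≤ (|v l| + |v (l + 2)|) / c := by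
        refine (abs_add_le _ _).trans ?_
        rw [abs_div, abs_div, add_div]
        exact add_le_add (div_le_div_of_nonneg_left (abs_nonneg _) hc (hP _).1)
          (div_le_div_of_nonneg_left (abs_nonneg _) hc (hP _).1)
      calc |r (l + 1)| * |v l / P l + v (l + 2) / P (l + 1)|
          ≤ R * ((|v l| + |v (l + 2)|) / c) :=
            mul_le_mul (hr _) h2 (abs_nonneg _) hR
        _ = R / c * (|v l| + |v (l + 2)|) := by ring
    have hg : ∀ i, |g i| ≤ 2 * R * C / c * |v (i + 1)| := by
      intro i
      have h1 : |g i| ≤ ∑ l ∈ Finset.range i, R / c * (|v l| + |v (l + 2)|) :=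
        (Finset.abs_sum_le_sum_abs _ _).trans (Finset.sum_le_sum fun l _ => hterm l)
      have h2 : ∑ l ∈ Finset.range i, |v l| ≤ ∑ l ∈ Finset.range (i + 2), |v l| :=
        Finset.sum_le_sum_of_subset_of_nonneg
          (Finset.range_mono (by omega)) (fun _ _ _ => abs_nonneg _)
      have h3 : ∑ l ∈ Finset.range i, |v (l + 2)| ≤ ∑ l ∈ Finset.range (i + 2), |v l| := by
        rw [Finset.sum_range_succ' (fun l => |v l|) (i + 1),
          Finset.sum_range_succ' (fun l => |v (l + 1)|) i]
        have : 0 ≤ |v (0 + 1)| + |v 0| := by positivity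
        linarith
      have h4 := hsum (i + 1) (by omega)
      rw [← Finset.mul_sum, Finset.sum_add_distrib] at h1
      have hRc : 0 ≤ R / c := div_nonneg hR hc.le
      calc |g i| ≤ R / c * (∑ l ∈ Finset.range i, |v l| + ∑ l ∈ Finset.range i, |v (l + 2)|) := h1
        _ ≤ R / c * (C * |v (i + 1)| + C * |v (i + 1)|) := by
            refine mul_le_mul_of_nonneg_left ?_ hRc
            exact add_le_add (h2.trans h4) (h3.trans h4)
        _ = 2 * R * C / c * |v (i + 1)| := by ring
    let t : ℕ → ℝ := fun l => P l * g l / (v l * v (l + 1))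
    have ht0 : t 0 = 0 := by simp [t, hv0]
    set A : ℝ := 2 * R * C ^ 2 / c with hA
    have hA0 : 0 ≤ A := by positivity
    have ht : ∀ l, |t l| ≤ A * (1 / |v l|) := by
      intro l
      rcases Nat.eq_zero_or_pos l with h | h
      · subst h
        rw [ht0, abs_zero]
        positivity
      · have p1 := hvpos l h
        have p2 := hvpos (l + 1) (by omega)
        simp only [t, abs_div, abs_mul]
        rw [div_le_iff₀ (mul_pos p1 p2)]
        calc |P l| * |g l| ≤ C * (2 * R * C / c * |v (l + 1)|) :=
              mul_le_mul (hP l).2 (hg l) (abs_nonneg _) hC.le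
          _ = A * (1 / |v l|) * (|v l| * |v (l + 1)|) := by
              rw [hA]
              field_simp
    have hfin : ∀ i n, 1 ≤ i → ∑ l ∈ Finset.range n, |t (i + l)| ≤ A * (C / |v i|) := by
      intro i n hi
      have h1 : ∑ l ∈ Finset.range n, |t (i + l)| ≤ ∑ l ∈ Finset.range n, A * (1 / |v (i + l)|) :=
        Finset.sum_le_sum fun l _ => ht _
      rw [← Finset.mul_sum] at h1
      refine h1.trans (mul_le_mul_of_nonneg_left ?_ hA0)
      have h2 := hinv i (i + n) hi
      rw [Finset.sum_Ico_eq_sum_range, Nat.add_sub_cancel_left] at h2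
      exact h2
    have hsm : ∀ i, 1 ≤ i → Summable fun l => t (i + l) := by
      intro i hi
      refine Summable.of_abs ?_
      exact summable_of_sum_range_le (fun l => abs_nonneg _) (fun n => hfin i n hi)
    have hsm1 : Summable fun l => t (l + 1) := by
      have := hsm 1 le_rfl
      simpa [add_comm] using this
    have hsm0 : Summable t := (summable_nat_add_iff 1).1 hsm1
    have hsmall : ∀ i, Summable fun l => t (i + l) := fun i => by
      have := (summable_nat_add_iff i).2 hsm0
      simpa [add_comm] using this
    let ξ : ℕ → ℝ := fun i => ∑' l, t (i + l)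
    have hξ : ∀ i, ξ i = t i + ξ (i + 1) := by
      intro i
      have := (hsmall i).tsum_eq_zero_add
      simp only [ξ]
      rw [this, add_zero]
      congr 1
      refine tsum_congr fun l => ?_
      congr 1
      ring
    refine ⟨fun i => v i * ξ i, by simp [hv0], ?_, ?_⟩
    · intro i
      rcases Nat.eq_zero_or_pos i with h | h
      · subst h
        simp only [hv0, zero_mul, abs_zero]
        positivity
      · have p1 := hvpos i h
        have h1 : |ξ i| ≤ A * (C / |v i|) := by
          have habs : Summable fun l => |t (i + l)| :=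
            summable_of_sum_range_le (fun l => abs_nonneg _) (fun n => hfin i n h)
          calc |ξ i| ≤ ∑' l, |t (i + l)| := by
                have := norm_tsum_le_tsum_norm (f := fun l => t (i + l)) habs
                simpa [ξ] using this
            _ ≤ A * (C / |v i|) :=
                Real.tsum_le_of_sum_range_le (fun l => abs_nonneg _) (fun n => hfin i n h)
        show |v i * ξ i| ≤ _
        rw [abs_mul]
        calc |v i| * |ξ i| ≤ |v i| * (A * (C / |v i|)) :=
              mul_le_mul_of_nonneg_left h1 (abs_nonneg _)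
          _ = 2 * C ^ 3 / c * R := by
              rw [hA]
              field_simp
          _ ≤ (|2 * C ^ 3 / c| + 1) * R := by
              refine mul_le_mul_of_nonneg_right ?_ hR
              have := le_abs_self (2 * C ^ 3 / c)
              linarith
    · intro i
      have e1 := hrec i
      have n1 := hPne i
      have n2 := hPne (i + 1)
      have m1 : v (i + 1) ≠ 0 := hv1 _ (by omega)
      have m2 : v (i + 2) ≠ 0 := hv1 _ (by omega)
      -- v i * t i = P i * g i / v (i+1)
      have a1 : v i * t i = P i * g i / v (i + 1) := by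
        rcases Nat.eq_zero_or_pos i with h | h
        · subst h
          rw [hv0, hg0]
          simp
        · have m0 : v i ≠ 0 := hv1 _ h
          simp only [t]
          field_simp
      have a2 : v (i + 2) * t (i + 1) = P (i + 1) * g (i + 1) / v (i + 1) := by
        simp only [t]
        field_simp
      have b1 : ξ i = t i + ξ (i + 1) := hξ i
      have b2 : ξ (i + 1) = t (i + 1) + ξ (i + 2) := hξ (i + 1)
      have b3 : ξ (i + 2) = ξ (i + 1) - t (i + 1) := by linarith
      show Q (i + 1) * (v (i + 1) * ξ (i + 1)) = P (i + 1) * (v i * ξ i) +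
        P i * (v (i + 2) * ξ (i + 2)) + Q (i + 1) * r (i + 1)
      rw [b1, b3]
      have c1 : P (i + 1) * (v i * (t i + ξ (i + 1))) + P i * (v (i + 2) * (ξ (i + 1) - t (i + 1)))
          + Q (i + 1) * r (i + 1)
          = ξ (i + 1) * (P (i + 1) * v i + P i * v (i + 2)) + P (i + 1) * (v i * t i)
            - P i * (v (i + 2) * t (i + 1)) + Q (i + 1) * r (i + 1) := by ring
      rw [c1, ← e1, a1, a2, hgs i]
      field_simp
      ring
  · -- uniqueness
    intro x y hx0 hy0 hxB hyB hx hy
    obtain ⟨B₁, hB₁⟩ := hxB
    obtain ⟨B₂, hB₂⟩ := hyB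
    let z : ℕ → ℝ := fun i => x i - y i
    have hz0 : z 0 = 0 := by simp [z, hx0, hy0]
    have hz : ∀ i, Q (i + 1) * z (i + 1) = P (i + 1) * z i + P i * z (i + 2) := by
      intro i
      simp only [z]
      linear_combination hx i - hy i
    have hw := wronsk P Q v z hv0 hPne hrec hz0 hz
    have hzv : ∀ i, z (i + 1) = z 1 / v 1 * v (i + 1) := by
      intro i
      induction i with
      | zero =>
        have := hv1 1 le_rfl
        simp only [zero_add]
        field_simp
      | succ i ih =>
        have h1 := hw (i + 1)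
        have m1 : v (i + 1) ≠ 0 := hv1 _ (by omega)
        rw [ih] at h1
        have : v (i + 1) * (z 1 / v 1 * v (i + 1 + 1)) = v (i + 1) * z (i + 1 + 1) := by
          linear_combination h1
        exact (mul_left_cancel₀ m1 this).symm
    have hzero : z 1 / v 1 = 0 := by
      by_contra hne
      set κ := |z 1 / v 1| with hκ
      have hκpos : 0 < κ := abs_pos.2 hne
      set B := |B₁| + |B₂| + 1 with hB
      have hBpos : 0 < B := by positivity
      have hzB : ∀ i, |z i| ≤ B := by
        intro i
        have h1 := (hB₁ i).trans (le_abs_self B₁)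
        have h2 := (hB₂ i).trans (le_abs_self B₂)
        have h3 : |z i| ≤ |x i| + |y i| := abs_sub _ _
        linarith
      have hlow : ∀ i, 1 ≤ i → κ / B ≤ 1 / |v i| := by
        intro i hi
        obtain ⟨j, rfl⟩ : ∃ j, i = j + 1 := ⟨i - 1, by omega⟩
        have h1 := hzB (j + 1)
        rw [hzv j, abs_mul] at h1
        rw [div_le_div_iff₀ hBpos (hvpos _ hi)]
        linarith
      obtain ⟨n, hn⟩ := exists_nat_gt (C / |v 1| / (κ / B))
      have h2 := hinv 1 (1 + n) le_rfl
      rw [Finset.sum_Ico_eq_sum_range, Nat.add_sub_cancel_left] at h2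
      have h3 : ∑ _l ∈ Finset.range n, κ / B ≤ ∑ l ∈ Finset.range n, 1 / |v (1 + l)| :=
        Finset.sum_le_sum fun l _ => hlow _ (by omega)
      rw [Finset.sum_const, Finset.card_range, nsmul_eq_mul] at h3
      have hpos : 0 < κ / B := div_pos hκpos hBpos
      rw [div_lt_iff₀ hpos] at hn
      linarith
    funext i
    rcases Nat.eq_zero_or_pos i with h | h
    · subst h
      rw [hx0, hy0]
    · obtain ⟨j, rfl⟩ : ∃ j, i = j + 1 := ⟨i - 1, by omega⟩
      have := hzv j
      rw [hzero, zero_mul] at this
      exact sub_eq_zero.1 this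

end Pool.Agent.H870.Tm
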